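import Pool.Agent.H446R9.EX.Clo
import Pool.Agent.H446R9.EX.Dic
import Pool.Agent.H446R9.EX.Ext

/-!
Groups in which the product of any two elements of order dividing `m` (`m` odd) has order
dividing `m` or `2`; local finiteness for the exponents `10, 20` and `18, 36`.

Proof in outline.  Let `P` be the set of elements with `x ^ m = 1`.  A short computation shows
that `P` together with the involutions which are products of two elements of `P` is closed under
multiplication, so all elements of `T = ⟨P⟩` have order dividing `m` or `2`.  If `T` is not of
exponent `m` and `m = 5, 9`, two coset enumerations (Coxeter's groups `G^{5,5,5} = L_2(11)` and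
`G^{3,9,9} = L_2(19)`), replayed by the kernel, and an elementary argument for isolated
involutions show that the involutions of `T` form, with `1`, a normal subgroup `S`; then `T / S`
acts freely on `S`, and an identity in rings of characteristic `2` bounds it.
-/

universe u

namespace Pool.Agent.Results.MP_544bd1_al.OddProducts

open Subgroup

/-- Let `m` be odd and `G` a group in which the product of any two elements of order dividing
`m` has order dividing `m` or `2`.  Then every element of the subgroup `T` generated by the
elements of order dividing `m` has order dividing `m` or `2`.  If moreover `m = 5` or `m = 9`,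
then either the product of any two elements of order dividing `m` has order dividing `m`, or
`T` is locally finite and every finitely generated subgroup of `G` of exponent dividing `4m`
is finite. -/
theorem result (G : Type u) [Group G] (m : ℕ) (hm : Odd m)
    (h : ∀ x y : G, x ^ m = 1 → y ^ m = 1 → (x * y) ^ m = 1 ∨ (x * y) ^ 2 = 1) :
    (∀ g ∈ Subgroup.closure {x : G | x ^ m = 1}, g ^ m = 1 ∨ g ^ 2 = 1) ∧
      (m = 5 ∨ m = 9 →
        (∀ x y : G, x ^ m = 1 → y ^ m = 1 → (x * y) ^ m = 1) ∨
          ((∀ F : Subgroup G, F.FG → F ≤ Subgroup.closure {x : G | x ^ m = 1} → Finite F) ∧
            ∀ F : Subgroup G, F.FG → (∀ g ∈ F, g ^ (4 * m) = 1) → Finite F)) := by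
  refine ⟨H446.EX.closure_orders hm h, fun h59 => ?_⟩
  rcases H446.EX.dichotomy h59 h with h1 | h1
  · left
    intro x y hx hy
    exact h1 _ (mul_mem (subset_closure hx) (subset_closure hy))
  · right
    exact ⟨h1, H446.EX.exp4m h1⟩

end Pool.Agent.Results.MP_544bd1_al.OddProducts
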