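import Pool.Agent.H242P3.Fin

/-!
Groups in which, for any two elements `a, b` of order 3, one of `ab`, `ab⁻¹` has order
dividing 3.

Proof in outline.  Let `X` be the set of elements with trivial cube; write `x ≈ y` if
`(xy)³ = 1`, so that `x ≈ y` or `x ≈ y⁻¹` for all `x, y ∈ X`; call `x, y` neutral if both hold
and `x, y` a strict pair if `x ≈ y` but not `x ≈ y⁻¹`.  Eighteen facts about two or three
elements of `X` are proved by case trees with coset enumerations at the leaves, replayed and
checked by the kernel (`Pool.Agent.H15R2.TC3` by helper15, `Pool.Agent.H242P3.Tree`, `Cert`,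
`Claims`).  From them (`Pool.Agent.H242P3.Struct`): an element neutral to both members of a
strict pair is neutral to all of `X`; if there is a strict pair, `X` is the disjoint union of
a set `Y`, of `Y⁻¹` and of the set `Z` of the elements neutral to all of `X`, any two elements
of `Y` satisfy `c ≈ d`, and `c d⁻¹ e ∈ Y` for `c, d, e ∈ Y`.  So `S = a⁻¹ Y` is a subgroup
(`a ∈ Y`), it is normal of index 3 in the subgroup `T` generated by `X`, and all elements of
`T` outside `S` have order 3; it follows that every element of `S` commutes with all its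
conjugates in `T` (`Pool.Agent.H242P3.Fin`), and local finiteness follows by Schreier's lemma
and induction on the number of generators.  Burnside's and Sanov's theorems are used for the
quotient by `T` (`Pool.Agent.H15R2.Burn`).
-/

universe u

namespace Pool.Agent.Results.MP_544bd1_al.ProductOrQuotientOfOrderThree

open Subgroup

/-- every group (in `Type u`) satisfying `x ^ m = 1` is locally finite -/
def LocFin (m : ℕ) : Prop :=
  ∀ (Q : Type u) [Group Q], (∀ q : Q, q ^ m = 1) → ∀ E : Subgroup Q, E.FG → Finite E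

/-- Let `G` be a group such that for any two elements `a, b` with `a³ = b³ = 1` one has
`(ab)³ = 1` or `(ab⁻¹)³ = 1`, and let `T` be the subgroup generated by the elements of
order 3.  Then `T` has a normal subgroup `S` of index 1 or 3 such that every element of `T`
outside `S` has order 3 and every element of `S` commutes with all its conjugates in `T`.  If
all elements of `T` have finite order, `T` is locally finite.  If `m ≥ 1` and all groups of
exponent dividing `m` are locally finite and `G` has exponent dividing `3m`, then `G` is locally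
finite; in particular `G` is locally finite if it has exponent dividing 9 or 12. -/
theorem result (G : Type u) [Group G]
    (h : ∀ a b : G, a ^ 3 = 1 → b ^ 3 = 1 → (a * b) ^ 3 = 1 ∨ (a * b⁻¹) ^ 3 = 1)
    (T : Subgroup G) (hT : T = Subgroup.closure {t : G | t ^ 3 = 1}) :
    (∃ S : Subgroup G, S ≤ T ∧ (S.relIndex T = 1 ∨ S.relIndex T = 3) ∧
      (∀ t ∈ T, t ∉ S → t ^ 3 = 1) ∧
      (∀ t ∈ T, ∀ s ∈ S, t⁻¹ * s * t ∈ S ∧ Commute s (t⁻¹ * s * t))) ∧
    ((∀ t ∈ T, IsOfFinOrder t) → ∀ F : Subgroup G, F.FG → F ≤ T → Finite F) ∧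
    (∀ m : ℕ, 0 < m → LocFin.{u} m → (∀ g : G, g ^ (3 * m) = 1) →
      ∀ F : Subgroup G, F.FG → Finite F) ∧
    ((∀ g : G, g ^ 9 = 1) → ∀ F : Subgroup G, F.FG → Finite F) ∧
    ((∀ g : G, g ^ 12 = 1) → ∀ F : Subgroup G, F.FG → Finite F) := by
  subst hT
  have hP : H242.P3.HP G := h
  have main : ∀ m : ℕ, 0 < m → LocFin.{u} m → (∀ g : G, g ^ (3 * m) = 1) →
      ∀ F : Subgroup G, F.FG → Finite F := by
    intro m hm hLF h3m F hF
    have hPF : H242.P3.HP F := by
      intro a b ha hb
      have ha' : (a : G) ^ 3 = 1 := by exact_mod_cast congrArg Subtype.val ha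
      have hb' : (b : G) ^ 3 = 1 := by exact_mod_cast congrArg Subtype.val hb
      rcases h a b ha' hb' with h3 | h4
      · left; ext; exact_mod_cast h3
      · right; ext; exact_mod_cast h4
    refine H242.P3.finite_exp hPF m hm ?_ ((Group.fg_iff_subgroup_fg F).mpr hF) ?_
    · intro Q _ hQ hq
      have h1 : Finite (⊤ : Subgroup Q) := hLF Q hq ⊤ (Group.fg_def.mp hQ)
      exact Finite.of_equiv _ (Subgroup.topEquiv (G := Q)).toEquiv
    · intro g
      ext
      exact_mod_cast h3m g
  refine ⟨?_, fun ht F hF hFT => H242.P3.finite_closure hP F hF hFT ht, main, ?_, ?_⟩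
  · obtain ⟨S, a, ha, hST, hcov, hcube, hconj⟩ := H242.P3.structure_thm hP
    refine ⟨S, hST, ?_, hcube, hconj⟩
    set T : Subgroup G := Subgroup.closure {t : G | t ^ 3 = 1} with hT
    have haT : a ∈ T := subset_closure ha
    have hn : (S.subgroupOf T).Normal := by
      refine ⟨fun s hs g => ?_⟩
      have h1 := (hconj (g⁻¹ : T).1 (g⁻¹ : T).2 s.1 hs).1
      show ((g * s * g⁻¹ : T) : G) ∈ S
      simpa using h1
    -- the quotient is generated by the image of `a`
    let q : T ⧸ S.subgroupOf T := QuotientGroup.mk (⟨a, haT⟩ : T)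
    have hq3 : q ^ 3 = 1 := by
      show (QuotientGroup.mk ((⟨a, haT⟩ : T) ^ 3) : T ⧸ S.subgroupOf T) = 1
      have : (⟨a, haT⟩ : T) ^ 3 = 1 := by ext; exact ha
      rw [this]; rfl
    have hgen : ∀ x : T ⧸ S.subgroupOf T, x ∈ zpowers q := by
      intro x
      obtain ⟨t, rfl⟩ := QuotientGroup.mk_surjective x
      obtain ⟨k, hk⟩ := hcov t.1 t.2
      refine ⟨-k, ?_⟩
      show (QuotientGroup.mk ((⟨a, haT⟩ : T) ^ (-k)) : T ⧸ S.subgroupOf T) = _
      rw [QuotientGroup.eq]
      show (a ^ (-k))⁻¹ * t.1 ∈ S
      rw [zpow_neg, inv_inv]; exact hk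
    have hdvd : S.relIndex T ∣ 3 := by
      have h1 : S.relIndex T = Nat.card (T ⧸ S.subgroupOf T) := rfl
      rw [h1, ← orderOf_eq_card_of_forall_mem_zpowers hgen]
      exact orderOf_dvd_of_pow_eq_one hq3
    exact (Nat.dvd_prime Nat.prime_three).mp hdvd
  · refine main 3 (by norm_num) ?_
    intro Q _ hq E hE
    refine H15.Struct.finite_exp3 ((Group.fg_iff_subgroup_fg E).mpr hE) ?_
    intro g
    ext
    exact_mod_cast hq g
  · refine main 4 (by norm_num) ?_
    intro Q _ hq E hE
    refine H15.Struct.finite_exp4 ((Group.fg_iff_subgroup_fg E).mpr hE) ?_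
    intro g
    ext
    exact_mod_cast hq g

end Pool.Agent.Results.MP_544bd1_al.ProductOrQuotientOfOrderThree
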