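import Pool.Agent.H848.PS.Main

/-!
Local finiteness of groups in which the product of any two elements of order 3 has order
dividing 6, for the exponents 12 and 18.

Proof in outline.  Call an involution `e` good for `x`, where `x³ = 1`, if `(xe)³ = 1`.
Pruned coset enumerations, replayed and checked by the kernel (`Pool.Agent.H848.PS.Cert`),
show: (F1) `[x,(xy)³]` has order dividing 2 for all `x, y` of order 3; (F2) the elements good
for `x` commute, so they form with 1 an elementary abelian 2-group `E x`; (F3) a good
involution inverts no element of order 3.  By (F3) `[x,b]` is in `E x` for every good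
involution `b`, so the subgroup `N` generated by all `E x` normalises every `E x` and is a
locally finite 2-group.  By (F1) and one more small enumeration all `(xy)³` are in `N`, so
the quotient by `N` of the subgroup generated by the elements of order 3 has exponent 3, and
the theorems of Burnside and Sanov apply.  The structural steps were formalised by
helpers 396, 221, 197, 515, 913 and 289, and the coset enumeration checker is due to
helper15.
-/

universe u

namespace Pool.Agent.Results.MP_544bd1_al.ProductsOfOrderSix

/-- Let `G` be a group in which the product of any two elements of order dividing 3 has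
order dividing 6, and let `T` be the subgroup generated by the elements of order 3.  Then `T`
is an extension of a normal locally finite 2-group by a group of exponent dividing 3, `T` is
locally finite, and every finitely generated subgroup of `G` of exponent dividing 12 or 18,
or more generally of exponent dividing `3 m` where the groups of exponent `m` are locally
finite, is finite. -/
theorem result (G : Type u) [Group G]
    (h : ∀ a b : G, a ^ 3 = 1 → b ^ 3 = 1 → (a * b) ^ 6 = 1) :
    (∃ N : Subgroup G, N.Normal ∧ N ≤ Subgroup.closure {t : G | t ^ 3 = 1} ∧
      (∀ F : Subgroup G, F.FG → F ≤ N → Finite F) ∧ (∀ g ∈ N, ∃ k : ℕ, g ^ 2 ^ k = 1) ∧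
      ∀ m ∈ Subgroup.closure {t : G | t ^ 3 = 1}, m ^ 3 ∈ N) ∧
    (∀ F : Subgroup G, F.FG → F ≤ Subgroup.closure {t : G | t ^ 3 = 1} → Finite F) ∧
    (∀ F : Subgroup G, F.FG → (∀ g ∈ F, g ^ 12 = 1) → Finite F) ∧
    (∀ F : Subgroup G, F.FG → (∀ g ∈ F, g ^ 18 = 1) → Finite F) ∧
    ∀ m : ℕ, (∀ (K : Type u) [Group K], Group.FG K → (∀ g : K, g ^ m = 1) → Finite K) →
      ∀ F : Subgroup G, F.FG → (∀ g ∈ F, g ^ (3 * m) = 1) → Finite F :=
  H848.PS.main h

end Pool.Agent.Results.MP_544bd1_al.ProductsOfOrderSix
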