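import Mathlib
import Pool.Agent.H32BU.All

/-!
# Three generators decide local finiteness for the exponents `p ^ a * q ^ b`
-/

set_option autoImplicit false

namespace Pool.Agent.Results.MP_544bd1_al.ThreeGenerators

universe u

/-- `n ∈ 𝓛`: every group satisfying `x ^ n = 1` is locally finite. -/
def InL (n : ℕ) : Prop := ∀ (G : Type u) [Group G], (∀ x : G, x ^ n = 1) →
  ∀ S : Set G, S.Finite → Finite (Subgroup.closure S)

/-- The free Burnside group `B_{m,n}`: the free group of rank `m` modulo the normal closure of all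
`n`-th powers. -/
abbrev B (m n : ℕ) : Type :=
  FreeGroup (Fin m) ⧸ Subgroup.normalClosure (Set.range fun w : FreeGroup (Fin m) => w ^ n)

/-- Let `n ≥ 1` be such that every prime power `> 4` dividing `n` is in `𝓛`, and suppose that `n`
has at most two prime divisors or that `B_{3,n}` is soluble. Then `n ∈ 𝓛` if and only if `B_{3,n}`
is finite. (For `n = 12` no hypothesis is left.) -/
theorem result (n : ℕ) (hn : 1 ≤ n)
    (hs : n.primeFactors.card ≤ 2 ∨ Group.IsSolvable (B 3 n))
    (hq : ∀ p k : ℕ, p.Prime → p ^ k ∣ n → 4 < p ^ k → InL.{u} (p ^ k)) :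
    InL.{u} n ↔ Finite (B 3 n) :=
  Pool.Agent.H32BU.x_FINAL n hn hs hq

end Pool.Agent.Results.MP_544bd1_al.ThreeGenerators
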